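import Pool.Agent.Helper82.UV.Core
import Pool.Agent.Helper80.UG.Avg
import Pool.Agent.Helper24.UG.Win
import Pool.Agent.Helper24.UG.Mass

/-!
# UV: many zeros in a window, general form

`X` the scale of the kernel, `b` the mean of `NX X`, `h` half the length of the window, `c = (X h / π) b` the mean number
of zeros in it, `w` the weight, `V` its mass.
-/

set_option autoImplicit false
open MeasureTheory Set Filter Topology
open Pool.Agent.Helper57.Zeta Pool.Agent.Helper57.LH Pool.Agent.Helper57.ED Pool.Agent.Helper54.LG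
open Pool.Agent.Helper93.UG (zc)

namespace Pool.Agent.Helper80.UV

open Pool.Agent.Helper80.UG (jb K_tail choice_ge SS_cont SS_bdd NX_meas)

/-- a small power under the weight, the point -/
lemma pow_pt {W T R τ t w : ℝ} (hT : 4 ≤ T) (hW0 : 0 < W) (hW : W ≤ T) (hτ : |τ| ≤ 2 * T) (hR0 : 0 ≤ R) (hR : R ≤ T)
    (hw : w = PW W (t - τ) * R) :
    w * (4 + |t|) ^ (1 / 16 : ℝ) ≤ 2 * T ^ (3 / 16 : ℝ) * w + 16 * (1 + t ^ 2) ^ (-(5 / 4 : ℝ) / 2) := by
  have hT0 : 0 < T := by linarith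
  have hP := PW_pos hW0 (t - τ)
  have hw0 : 0 ≤ w := by rw [hw]; positivity
  rcases le_total |t| (T ^ (3 : ℝ)) with h | h
  · have h1 : (4 + |t|) ^ (1 / 16 : ℝ) ≤ 2 * T ^ (3 / 16 : ℝ) := by
      have h2 : 4 + |t| ≤ 2 ^ (16 : ℝ) * T ^ (3 : ℝ) := by
        have h3 : 1 ≤ T ^ (3 : ℝ) := Real.one_le_rpow (by linarith) (by norm_num)
        have h4 : (2 : ℝ) ^ (16 : ℝ) = 65536 := by norm_num
        rw [h4]
        linarith
      calc (4 + |t|) ^ (1 / 16 : ℝ) ≤ (2 ^ (16 : ℝ) * T ^ (3 : ℝ)) ^ (1 / 16 : ℝ) :=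
            Real.rpow_le_rpow (by positivity) h2 (by norm_num)
        _ = 2 * T ^ (3 / 16 : ℝ) := by
            rw [Real.mul_rpow (by positivity) (by positivity), ← Real.rpow_mul (by norm_num), ← Real.rpow_mul hT0.le]
            norm_num
    have h2 := mul_le_mul_of_nonneg_left h1 hw0
    have h3 : 0 ≤ 16 * (1 + t ^ 2) ^ (-(5 / 4 : ℝ) / 2) := by positivity
    linarith
  · have hT3 : 16 * T ≤ T ^ (3 : ℝ) := by
      rw [show (3 : ℝ) = ((3 : ℕ) : ℝ) by norm_num, Real.rpow_natCast]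
      nlinarith [mul_le_mul hT hT (by norm_num) (by linarith : (0 : ℝ) ≤ T)]
    have ht0 : 0 < |t| := by linarith
    have ht1 : 1 ≤ |t| := by linarith
    have h1 : |t| / 2 ≤ |t - τ| := by
      have h2 : |t| ≤ |t - τ| + |τ| := by
        have := abs_add_le (t - τ) τ
        rwa [sub_add_cancel] at this
      linarith
    have h2 : w ≤ 4 * T ^ 2 / |t| ^ 2 := by
      have h3 : PW W (t - τ) ≤ W / (Real.pi * (t - τ) ^ 2) := by
        have h4 : 0 < (t - τ) ^ 2 := by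
          rw [← sq_abs]
          have : 0 < |t - τ| := by linarith
          positivity
        have hpi := Real.pi_pos
        unfold PW
        rw [div_le_div_iff₀ (by positivity) (by positivity)]
        nlinarith [mul_pos hpi h4, mul_pos hW0 (mul_pos hpi (pow_pos hW0 2)), pow_pos hW0 2]
      have h4 : W / (Real.pi * (t - τ) ^ 2) ≤ 4 * T / |t| ^ 2 := by
        have h5 : (|t| / 2) ^ 2 ≤ (t - τ) ^ 2 := by
          rw [← sq_abs (t - τ)]
          exact pow_le_pow_left₀ (by positivity) h1 2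
        have h6 : |t| ^ 2 ≤ Real.pi * (4 * (t - τ) ^ 2) := by
          have hpi := Real.pi_gt_three
          have : 0 ≤ (t - τ) ^ 2 := sq_nonneg _
          nlinarith
        rw [div_le_div_iff₀ (by
          have : 0 < (t - τ) ^ 2 := lt_of_lt_of_le (by positivity) h5
          positivity) (by positivity)]
        calc W * |t| ^ 2 ≤ T * (Real.pi * (4 * (t - τ) ^ 2)) := mul_le_mul hW h6 (by positivity) hT0.le
          _ = _ := by ring
      rw [hw]
      calc PW W (t - τ) * R ≤ (4 * T / |t| ^ 2) * T := mul_le_mul (h3.trans h4) hR hR0 (by positivity)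
        _ = _ := by ring
    have h3 : (4 + |t|) ^ (1 / 16 : ℝ) ≤ 2 * |t| ^ (1 / 16 : ℝ) := by
      calc (4 + |t|) ^ (1 / 16 : ℝ) ≤ (2 ^ (16 : ℝ) * |t|) ^ (1 / 16 : ℝ) := by
            refine Real.rpow_le_rpow (by positivity) ?_ (by norm_num)
            have h4 : (2 : ℝ) ^ (16 : ℝ) = 65536 := by norm_num
            rw [h4]
            linarith
        _ = 2 * |t| ^ (1 / 16 : ℝ) := by
            rw [Real.mul_rpow (by positivity) (by positivity), ← Real.rpow_mul (by norm_num)]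
            norm_num
    have h4 : w * (4 + |t|) ^ (1 / 16 : ℝ) ≤ 8 * (T ^ 2 * (|t| ^ (-(2 : ℝ)) * |t| ^ (1 / 16 : ℝ))) := by
      have h5 : |t| ^ (-(2 : ℝ)) = 1 / |t| ^ 2 := by
        rw [Real.rpow_neg (abs_nonneg t), one_div]
        norm_num
      rw [h5]
      calc w * (4 + |t|) ^ (1 / 16 : ℝ) ≤ (4 * T ^ 2 / |t| ^ 2) * (2 * |t| ^ (1 / 16 : ℝ)) :=
            mul_le_mul h2 h3 (by positivity) (by positivity)
        _ = _ := by ring
    have h5 : T ^ 2 * (|t| ^ (-(2 : ℝ)) * |t| ^ (1 / 16 : ℝ)) ≤ 2 * (1 + t ^ 2) ^ (-(5 / 4 : ℝ) / 2) := by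
      have h6 : |t| ^ (-(2 : ℝ)) * |t| ^ (1 / 16 : ℝ) = |t| ^ (-(11 / 16) : ℝ) * |t| ^ (-(5 / 4) : ℝ) := by
        rw [← Real.rpow_add ht0, ← Real.rpow_add ht0]
        norm_num
      have h7 : |t| ^ (-(11 / 16) : ℝ) ≤ T ^ (-(33 / 16) : ℝ) := by
        calc |t| ^ (-(11 / 16) : ℝ) ≤ (T ^ (3 : ℝ)) ^ (-(11 / 16) : ℝ) :=
              Real.rpow_le_rpow_of_nonpos (by positivity) h (by norm_num)
          _ = _ := by
              rw [← Real.rpow_mul hT0.le]
              norm_num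
      have h8 : |t| ^ (-(5 / 4) : ℝ) ≤ 2 * (1 + t ^ 2) ^ (-(5 / 4 : ℝ) / 2) := by
        have h1 : (1 + t ^ 2) ≤ 2 * |t| ^ (2 : ℝ) := by
          rw [Real.rpow_two, sq_abs]
          have : 1 ≤ t ^ 2 := by rw [← sq_abs]; nlinarith
          linarith
        have h2 : (2 * |t| ^ (2 : ℝ)) ^ (-(5 / 4 : ℝ) / 2) ≤ (1 + t ^ 2) ^ (-(5 / 4 : ℝ) / 2) :=
          Real.rpow_le_rpow_of_nonpos (by positivity) h1 (by norm_num)
        rw [Real.mul_rpow (by norm_num) (by positivity), ← Real.rpow_mul ht0.le] at h2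
        have h3 : (2 : ℝ) * (-(5 / 4 : ℝ) / 2) = -(5 / 4) := by norm_num
        rw [h3] at h2
        have h4 : (1 / 2 : ℝ) ≤ 2 ^ (-(5 / 4 : ℝ) / 2) := by
          calc (1 / 2 : ℝ) = 2 ^ (-1 : ℝ) := by rw [Real.rpow_neg_one]; norm_num
            _ ≤ 2 ^ (-(5 / 4 : ℝ) / 2) := Real.rpow_le_rpow_of_exponent_le (by norm_num) (by norm_num)
        have h5 : 1 / 2 * |t| ^ (-(5 / 4) : ℝ) ≤ 2 ^ (-(5 / 4 : ℝ) / 2) * |t| ^ (-(5 / 4) : ℝ) :=
          mul_le_mul_of_nonneg_right h4 (by positivity)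
        linarith
      have h9 : T ^ 2 * T ^ (-(33 / 16) : ℝ) = T ^ (-(1 / 16) : ℝ) := by
        rw [← Real.rpow_two, ← Real.rpow_add hT0]
        norm_num
      have h10 : T ^ (-(1 / 16) : ℝ) ≤ 1 := Real.rpow_le_one_of_one_le_of_nonpos (by linarith) (by norm_num)
      rw [h6]
      calc T ^ 2 * (|t| ^ (-(11 / 16) : ℝ) * |t| ^ (-(5 / 4) : ℝ))
          ≤ T ^ 2 * (T ^ (-(33 / 16) : ℝ) * (2 * (1 + t ^ 2) ^ (-(5 / 4 : ℝ) / 2))) := by gcongr
        _ = T ^ (-(1 / 16) : ℝ) * (2 * (1 + t ^ 2) ^ (-(5 / 4 : ℝ) / 2)) := by rw [← h9]; ring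
        _ ≤ 1 * (2 * (1 + t ^ 2) ^ (-(5 / 4 : ℝ) / 2)) := mul_le_mul_of_nonneg_right h10 (by positivity)
        _ = _ := one_mul _
    have h6 : 0 ≤ 2 * T ^ (3 / 16 : ℝ) * w := by positivity
    linarith

/-- a small power under the weight -/
theorem wt_pow : ∃ C : ℝ, 0 ≤ C ∧ ∀ {W T τ V : ℝ} {R w : ℝ → ℝ}, 4 ≤ T → 0 < W → W ≤ T → |τ| ≤ 2 * T →
    (∀ t, 0 ≤ R t ∧ R t ≤ T) → (∀ t, w t = PW W (t - τ) * R t) → Continuous w → Integrable w → 1 ≤ V →
    ∫ t, w t ≤ 2 * V →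
    Integrable (fun t => w t * (4 + |t|) ^ (1 / 16 : ℝ)) ∧
    ∫ t, w t * (4 + |t|) ^ (1 / 16 : ℝ) ≤ C * V * T ^ (3 / 16 : ℝ) := by
  have hj := jb (r := 5 / 4) (by norm_num)
  set I : ℝ := ∫ y : ℝ, (1 + y ^ 2) ^ (-(5 / 4 : ℝ) / 2) with hI
  have hI0 : 0 ≤ I := integral_nonneg fun y => by positivity
  refine ⟨4 + 16 * I, by positivity, ?_⟩
  intro W T τ V R w hT hW0 hW hτ hR hw hwc hwi hV hm
  have hT0 : 0 < T := by linarith
  have hpt : ∀ t, w t * (4 + |t|) ^ (1 / 16 : ℝ) ≤ 2 * T ^ (3 / 16 : ℝ) * w t + 16 * (1 + t ^ 2) ^ (-(5 / 4 : ℝ) / 2) :=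
    fun t => pow_pt hT hW0 hW hτ (hR t).1 (hR t).2 (hw t)
  have hmaj : Integrable (fun t => 2 * T ^ (3 / 16 : ℝ) * w t + 16 * (1 + t ^ 2) ^ (-(5 / 4 : ℝ) / 2)) :=
    (hwi.const_mul _).add (hj.const_mul _)
  have hw0 : ∀ t, 0 ≤ w t := fun t => by rw [hw]; exact mul_nonneg (PW_pos hW0 _).le (hR t).1
  have hi : Integrable (fun t => w t * (4 + |t|) ^ (1 / 16 : ℝ)) := by
    refine hmaj.mono' ?_ (Eventually.of_forall fun t => ?_)
    · exact (hwc.mul ((continuous_const.add continuous_abs).rpow_const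
        fun t => Or.inr (by norm_num))).aestronglyMeasurable
    · rw [Real.norm_of_nonneg (mul_nonneg (hw0 t) (by positivity))]
      exact hpt t
  refine ⟨hi, (integral_mono hi hmaj hpt).trans ?_⟩
  rw [integral_add (hwi.const_mul _) (hj.const_mul _), integral_const_mul, integral_const_mul, ← hI]
  have hT1 : 1 ≤ T ^ (3 / 16 : ℝ) := Real.one_le_rpow (by linarith) (by norm_num)
  have h1 : 2 * T ^ (3 / 16 : ℝ) * (∫ t, w t) ≤ 2 * T ^ (3 / 16 : ℝ) * (2 * V) := mul_le_mul_of_nonneg_left hm (by positivity)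
  have h2 : 16 * I * 1 ≤ 16 * I * (V * T ^ (3 / 16 : ℝ)) := by
    refine mul_le_mul_of_nonneg_left ?_ (by positivity)
    calc (1 : ℝ) = 1 * 1 := (mul_one _).symm
      _ ≤ V * T ^ (3 / 16 : ℝ) := mul_le_mul hV hT1 zero_le_one (by linarith)
  linarith

/-- the shifts larger than `√T` -/
theorem tail : ∃ T0 : ℝ, 16 ≤ T0 ∧ ∀ {W T τ V X h : ℝ} {R w : ℝ → ℝ}, T0 ≤ T → 0 < W → W ≤ T → |τ| ≤ 2 * T →
    (∀ t, 0 ≤ R t ∧ R t ≤ T) → (∀ t, w t = PW W (t - τ) * R t) → Continuous w → Integrable w → 1 ≤ V →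
    ∫ t, w t ≤ 2 * V → 1 ≤ X → 0 ≤ h → h ≤ 1 →
    ∫⁻ s in {s : ℝ | √T < |s|}, ENNReal.ofReal (X / (2 * Real.pi) * qk 0 (X * s)) *
      ∫⁻ t, ENNReal.ofReal (w t * (zc (Ico (t + s - h) (t + s + h)) : ℝ)) ≤ ENNReal.ofReal V := by
  obtain ⟨C1, hC1, hpow⟩ := wt_pow
  obtain ⟨Cz, hCz, hz⟩ := Pool.Agent.Helper24.UG.zc_triv
  obtain ⟨C2, hC2, hK⟩ := K_tail
  have hlim : ∀ᶠ T : ℝ in atTop, 16 * Cz * C1 * C2 * T ^ (-(1 / 16) : ℝ) < 1 := by
    have h1 : Tendsto (fun T : ℝ => 16 * Cz * C1 * C2 * T ^ (-(1 / 16) : ℝ)) atTop (𝓝 (16 * Cz * C1 * C2 * 0)) :=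
      (tendsto_rpow_neg_atTop (by norm_num)).const_mul _
    exact h1.eventually_lt_const (by rw [mul_zero]; exact one_pos)
  obtain ⟨T4, hT4⟩ := hlim.exists_forall_of_atTop
  refine ⟨max T4 16, le_max_right _ _, ?_⟩
  intro W T τ V X h R w hT hW0 hW hτ hR hw hwc hwi hV hm hX1 hh0 hh1
  rw [max_le_iff] at hT
  have hT0 : 0 < T := by linarith
  obtain ⟨hi, hb⟩ := hpow (by linarith) hW0 hW hτ hR hw hwc hwi hV hm
  have hV0 : 0 ≤ V := by linarith
  have hw0 : ∀ t, 0 ≤ w t := fun t => by rw [hw]; exact mul_nonneg (PW_pos hW0 _).le (hR t).1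
  have hJ : ∀ s, ∫⁻ t, ENNReal.ofReal (w t * (zc (Ico (t + s - h) (t + s + h)) : ℝ)) ≤
      ENNReal.ofReal ((16 * Cz * (C1 * V * T ^ (3 / 16 : ℝ))) * (4 + |s|) ^ (1 / 16 : ℝ)) := by
    intro s
    have hpt : ∀ t, w t * (zc (Ico (t + s - h) (t + s + h)) : ℝ) ≤
        (16 * Cz * (4 + |s|) ^ (1 / 16 : ℝ)) * (w t * (4 + |t|) ^ (1 / 16 : ℝ)) := by
      intro t
      have h1 := hz (t + s) h hh0 hh1
      have h2 : Real.log (4 + |t + s|) ≤ 16 * ((4 + |s|) ^ (1 / 16 : ℝ) * (4 + |t|) ^ (1 / 16 : ℝ)) := by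
        rw [← Real.mul_rpow (by positivity) (by positivity)]
        have h3 : 4 + |t + s| ≤ (4 + |s|) * (4 + |t|) := by
          have := abs_add_le t s
          nlinarith [abs_nonneg s, abs_nonneg t, mul_nonneg (abs_nonneg s) (abs_nonneg t)]
        calc Real.log (4 + |t + s|) ≤ Real.log ((4 + |s|) * (4 + |t|)) := Real.log_le_log (by positivity) h3
          _ ≤ ((4 + |s|) * (4 + |t|)) ^ (1 / 16 : ℝ) / (1 / 16) := Real.log_le_rpow_div (by positivity) (by norm_num)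
          _ = _ := by ring
      calc w t * (zc (Ico (t + s - h) (t + s + h)) : ℝ)
          ≤ w t * (Cz * (16 * ((4 + |s|) ^ (1 / 16 : ℝ) * (4 + |t|) ^ (1 / 16 : ℝ)))) :=
            mul_le_mul_of_nonneg_left (h1.trans (mul_le_mul_of_nonneg_left h2 hCz.le)) (hw0 t)
        _ = _ := by ring
    calc ∫⁻ t, ENNReal.ofReal (w t * (zc (Ico (t + s - h) (t + s + h)) : ℝ))
        ≤ ∫⁻ t, ENNReal.ofReal ((16 * Cz * (4 + |s|) ^ (1 / 16 : ℝ)) * (w t * (4 + |t|) ^ (1 / 16 : ℝ))) :=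
          lintegral_mono fun t => ENNReal.ofReal_le_ofReal (hpt t)
      _ = ENNReal.ofReal (∫ t, (16 * Cz * (4 + |s|) ^ (1 / 16 : ℝ)) * (w t * (4 + |t|) ^ (1 / 16 : ℝ))) := by
          rw [ofReal_integral_eq_lintegral_ofReal (hi.const_mul _) (Eventually.of_forall fun t =>
            mul_nonneg (by positivity) (mul_nonneg (hw0 t) (by positivity)))]
      _ ≤ _ := by
          apply ENNReal.ofReal_le_ofReal
          rw [integral_const_mul]
          calc 16 * Cz * (4 + |s|) ^ (1 / 16 : ℝ) * (∫ t, w t * (4 + |t|) ^ (1 / 16 : ℝ))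
              ≤ 16 * Cz * (4 + |s|) ^ (1 / 16 : ℝ) * (C1 * V * T ^ (3 / 16 : ℝ)) := mul_le_mul_of_nonneg_left hb (by positivity)
            _ = _ := by ring
  have hB1 : 1 ≤ √T := Real.one_le_sqrt.2 (by linarith)
  refine (hK X (√T) (16 * Cz * (C1 * V * T ^ (3 / 16 : ℝ))) hX1 hB1 (by positivity) _ hJ).trans ?_
  apply ENNReal.ofReal_le_ofReal
  have h1 : (√T) ^ (-(1 / 2) : ℝ) = T ^ (-(1 / 4) : ℝ) := by
    rw [Real.sqrt_eq_rpow, ← Real.rpow_mul hT0.le]
    norm_num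
  have h2 : T ^ (3 / 16 : ℝ) * T ^ (-(1 / 4) : ℝ) = T ^ (-(1 / 16) : ℝ) := by
    rw [← Real.rpow_add hT0]
    norm_num
  rw [h1]
  calc 16 * Cz * (C1 * V * T ^ (3 / 16 : ℝ)) * (C2 * T ^ (-(1 / 4) : ℝ)) =
      V * (16 * Cz * C1 * C2 * (T ^ (3 / 16 : ℝ) * T ^ (-(1 / 4) : ℝ))) := by ring
    _ ≤ V * 1 := by
        rw [h2]
        exact mul_le_mul_of_nonneg_left (hT4 T hT.1).le hV0
    _ = V := mul_one V

/-- many zeros in a window, general form -/
theorem many_core {w : ℝ → ℝ} {X h T c b θ θ' Cs K V Cw : ℝ} (hX : 1 ≤ X) (hh : 0 < h) (hb : 0 < b)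
    (hq1 : 1 ≤ X * h / Real.pi) (hcb : X * h / Real.pi * b = c) (hhT : h ≤ √T) (hT : 16 ≤ T) (hc1 : 1 ≤ c)
    (hcT : 16 * c ≤ Real.log T)
    (hwc : Continuous w) (hwi : Integrable w) (hw0 : ∀ t, 0 ≤ w t) (hV : 1 ≤ V) (hm : |(∫ t, w t) - V| ≤ V / T)
    (hCs : 0 ≤ Cs) (hK : 0 ≤ K) (hCw : 0 ≤ Cw)
    (hD : ∀ u, |u| ≤ √T → Integrable (fun t => w t * |Helper69.UG.NX X (t + u) - b + SS X (t + u)|) ∧
      ∫ t, w t * |Helper69.UG.NX X (t + u) - b + SS X (t + u)| ≤ K * V)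
    (hs : ∀ u, ∫ t, w t * SS X (t + u) ^ 2 ≤ Cs * b * V)
    (hSb : ∫ t, w t * (X / (2 * Real.pi) * ∫ u in (-h)..h, SS X (t + u)) ≤ -(θ * √c * V))
    (hwle : ∀ t, (zc (Ico (t - h) (t + h)) : ℝ) ≤ Cw * Helper69.UG.NX X t)
    (htail : ∫⁻ s in {s : ℝ | √T < |s|}, ENNReal.ofReal (X / (2 * Real.pi) * qk 0 (X * s)) *
      ∫⁻ t, ENNReal.ofReal (w t * (zc (Ico (t + s - h) (t + s + h)) : ℝ)) ≤ ENNReal.ofReal V)
    (hθ : |θ| < √c) (hθ' : |θ'| < √c)
    (hM : 8 + 4 * (X * h / Real.pi * K + Cw * (Cs + 2 * K + 1)) ≤ (θ - θ') * √c) :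
    ∃ s : ℝ, |s| ≤ √T ∧ V / c ≤ ∫ t in {t : ℝ | t + s ∈ {t : ℝ | c + θ' * √c ≤ (zc (Ico (t - h) (t + h)) : ℝ)}}, w t := by
  have hc0 : 0 < c := by linarith
  have hsc1 : 1 ≤ √c := Real.one_le_sqrt.mpr hc1
  have hscs : √c ^ 2 = c := Real.sq_sqrt hc0.le
  have hT0 : 0 < T := by linarith
  have hpi := Real.pi_pos
  have hX0 : 0 < X := by linarith
  have hcT' : c ≤ T := by
    have h1 := Real.log_le_sub_one_of_pos hT0
    linarith
  have hV0 : 0 < V := by linarith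
  set m := ∫ t, w t with hmdef
  obtain ⟨hm1, hm2⟩ := abs_le.mp hm
  have hcVT : c * (V / T) ≤ V := by
    rw [mul_div_assoc', div_le_iff₀ hT0, mul_comm]
    exact mul_le_mul_of_nonneg_left hcT' hV0.le
  set q := X * h / Real.pi with hq
  have hq0 : 0 < q := by positivity
  have hqa : 2 * h * (X / (2 * Real.pi)) = q := by rw [hq]; field_simp
  have hbc : b ≤ c := by
    rw [← hcb]
    exact le_mul_of_one_le_left hb.le hq1
  set Sb := ∫ t, w t * (X / (2 * Real.pi) * ∫ u in (-h)..h, SS X (t + u)) with hSbd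
  obtain ⟨BS, hBS0, hBS⟩ := SS_bdd X
  obtain ⟨hJi, hJ⟩ := Pool.Agent.Helper82.UV.mean_avg (a := X / (2 * Real.pi)) (by positivity) hwc hwi hw0 (NX_meas X)
    (SS_cont X) hBS hh (fun u hu => hD u (hu.trans hhT))
  set J := ∫ t, w t * (X / (2 * Real.pi) * ∫ u in (-h)..h, Helper69.UG.NX X (t + u)) with hJdef
  rw [← hSbd, ← hmdef, hqa, hcb] at hJ
  have hJ1 : (c - 1 + θ * √c - q * K) * V ≤ J := by
    have h1 := (abs_le.mp hJ).1
    have h2 : c * (V - V / T) ≤ c * m := mul_le_mul_of_nonneg_left (by linarith) hc0.le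
    have h3 : c * (V - V / T) = c * V - c * (V / T) := by ring
    have h4 : (c - 1 + θ * √c - q * K) * V = c * V - V + θ * √c * V - q * (K * V) := by ring
    linarith
  obtain ⟨hki, hk1, hkt⟩ := Pool.Agent.Helper24.UG.qk_mass hX0
  set k : ℝ → ℝ := fun s => X / (2 * Real.pi) * qk 0 (X * s) with hk
  have hkc : Continuous k := continuous_const.mul ((qk_cont 0).comp (by fun_prop))
  have hk0 : ∀ s, 0 ≤ k s := fun s => mul_nonneg (by positivity) (qk_zero_nonneg _)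
  set z : ℝ → ℝ := fun t => (zc (Ico (t - h) (t + h)) : ℝ) with hz
  have hzm : Measurable z := Pool.Agent.Helper24.UG.zc_meas h
  have hz0 : ∀ t, 0 ≤ z t := fun t => Nat.cast_nonneg _
  have hton := Pool.Agent.Helper82.UV.tonelli (A := fun t => X / (2 * Real.pi) * ∫ u in (-h)..h, Helper69.UG.NX X (t + u))
    hwc hw0 hzm hz0 hkc hk0 (fun t => Pool.Agent.Helper24.UG.window_gen hX0 t hh.le) hJi
  rw [← hJdef] at hton
  set θm := (θ + θ') / 2 with hθm
  have hd1 : (θ - θm) * √c = (θ - θ') * √c / 2 := by rw [hθm]; ring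
  have hd2 : (θm - θ') * √c = (θ - θ') * √c / 2 := by rw [hθm]; ring
  have hA1 : 0 ≤ q * K := by positivity
  have hA2 : 0 ≤ Cw * (Cs + 2 * K + 1) := by positivity
  have hθ1 : -√c < θ := (abs_lt.mp hθ).1
  have hθ'1 : -√c < θ' := (abs_lt.mp hθ').1
  have hθ'2 : θ' < √c := (abs_lt.mp hθ').2
  have hcm : 0 < c + θm * √c := by
    have h1 : c + θm * √c = √c * (√c + θm) := by linear_combination -hscs
    rw [h1]
    exact mul_pos (by linarith) (by linarith)
  have ha0 : 0 ≤ V * (c + θm * √c) := by positivity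
  obtain ⟨s, hsB, hE⟩ := choice_ge (B := √T) (e := V) (a := V * (c + θm * √c)) hk0 hki hk1 hton.ge htail hV0.le ha0 (by
    refine lt_of_lt_of_le ?_ hJ1
    have h1 : V * (c + θm * √c) + V = (c + θm * √c + 1) * V := by ring
    rw [h1]
    apply mul_lt_mul_of_pos_right _ hV0
    linarith)
  refine ⟨s, hsB, ?_⟩
  set y := c + θ' * √c with hy
  have hy0 : 0 ≤ y := by
    have h1 : y = √c * (√c + θ') := by rw [hy]; linear_combination -hscs
    rw [h1]
    exact mul_nonneg (by linarith) (by linarith)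
  have hyc : y ≤ 2 * c := by
    have h1 : 2 * c - y = √c * (√c - θ') := by rw [hy]; linear_combination -hscs
    have h2 : 0 ≤ √c * (√c - θ') := mul_nonneg (by linarith) (by linarith)
    linarith
  set G : Set ℝ := {t : ℝ | y ≤ z (t + s)} with hG
  have hGm : MeasurableSet G := measurableSet_le measurable_const (hzm.comp (measurable_id.add_const s))
  have hGeq : {t : ℝ | t + s ∈ {t : ℝ | y ≤ (zc (Ico (t - h) (t + h)) : ℝ)}} = G := rfl
  rw [hGeq]
  set mG : ℝ := ∫ t in G, w t with hmG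
  have hmG0 : 0 ≤ mG := setIntegral_nonneg hGm fun t _ => hw0 t
  obtain ⟨hDi, hDb⟩ := hD s hsB
  have hSi : Integrable (fun t => w t * SS X (t + s) ^ 2) := by
    refine hwi.mul_bdd (c := BS ^ 2) (((SS_cont X).comp (continuous_add_const s)).pow 2).aestronglyMeasurable
      (Eventually.of_forall fun t => ?_)
    rw [Real.norm_of_nonneg (sq_nonneg _), ← sq_abs]
    exact pow_le_pow_left₀ (abs_nonneg _) (hBS _) 2
  set g : ℝ → ℝ := fun t => 3 / 2 * b * w t + 1 / (2 * b) * (w t * SS X (t + s) ^ 2) +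
    w t * |Helper69.UG.NX X (t + s) - b + SS X (t + s)| with hg
  have hgi : Integrable g := ((hwi.const_mul _).add (hSi.const_mul _)).add hDi
  have hg0 : ∀ t, 0 ≤ g t := by
    intro t
    have := hw0 t
    positivity
  have hZg : ∀ t, w t * z (t + s) ≤ Cw * g t := by
    intro t
    have hw := hw0 t
    have h1 : z (t + s) ≤ Cw * Helper69.UG.NX X (t + s) := hwle (t + s)
    have h2 : Helper69.UG.NX X (t + s) ≤ b + |SS X (t + s)| + |Helper69.UG.NX X (t + s) - b + SS X (t + s)| := by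
      have h3 := le_abs_self (Helper69.UG.NX X (t + s) - b + SS X (t + s))
      have h4 := neg_abs_le (SS X (t + s))
      linarith
    have h3 : |SS X (t + s)| ≤ b / 2 + 1 / (2 * b) * SS X (t + s) ^ 2 := by
      rw [← sq_abs (SS X (t + s))]
      set y := |SS X (t + s)|
      have h4 : b / 2 + 1 / (2 * b) * y ^ 2 - y = 1 / (2 * b) * (y - b) ^ 2 := by
        field_simp
        ring
      have h5 : 0 ≤ 1 / (2 * b) * (y - b) ^ 2 := by positivity
      linarith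
    have h4 : z (t + s) ≤ Cw * (3 / 2 * b + 1 / (2 * b) * SS X (t + s) ^ 2 +
        |Helper69.UG.NX X (t + s) - b + SS X (t + s)|) :=
      h1.trans (mul_le_mul_of_nonneg_left (by linarith) hCw)
    calc w t * z (t + s) ≤ w t * (Cw * (3 / 2 * b + 1 / (2 * b) * SS X (t + s) ^ 2 +
        |Helper69.UG.NX X (t + s) - b + SS X (t + s)|)) := mul_le_mul_of_nonneg_left h4 hw
      _ = _ := by rw [hg]; ring
  have hgG : ∫ t in G, g t ≤ 3 / 2 * b * mG + (Cs / 2 + K) * V := by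
    have h1 : ∫ t in G, g t = 3 / 2 * b * mG + 1 / (2 * b) * (∫ t in G, w t * SS X (t + s) ^ 2) +
        ∫ t in G, w t * |Helper69.UG.NX X (t + s) - b + SS X (t + s)| := by
      have hi1 : Integrable (fun t => 3 / 2 * b * w t + 1 / (2 * b) * (w t * SS X (t + s) ^ 2)) :=
        (hwi.const_mul _).add (hSi.const_mul _)
      have h2 := integral_add (μ := volume.restrict G) (f := fun t => 3 / 2 * b * w t + 1 / (2 * b) * (w t * SS X (t + s) ^ 2))
        (g := fun t => w t * |Helper69.UG.NX X (t + s) - b + SS X (t + s)|)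
        hi1.integrableOn hDi.integrableOn
      have h3 := integral_add (μ := volume.restrict G) (f := fun t => 3 / 2 * b * w t) (g := fun t => 1 / (2 * b) * (w t * SS X (t + s) ^ 2))
        (hwi.const_mul _).integrableOn (hSi.const_mul _).integrableOn
      rw [h3, integral_const_mul, integral_const_mul] at h2
      exact h2
    have h2 : ∫ t in G, w t * SS X (t + s) ^ 2 ≤ Cs * b * V :=
      (setIntegral_le_integral hSi (Eventually.of_forall fun t => mul_nonneg (hw0 t) (sq_nonneg _))).trans (hs s)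
    have h3 : ∫ t in G, w t * |Helper69.UG.NX X (t + s) - b + SS X (t + s)| ≤ K * V :=
      (setIntegral_le_integral hDi (Eventually.of_forall fun t => mul_nonneg (hw0 t) (abs_nonneg _))).trans hDb
    have h4 : 1 / (2 * b) * (∫ t in G, w t * SS X (t + s) ^ 2) ≤ Cs / 2 * V := by
      calc 1 / (2 * b) * (∫ t in G, w t * SS X (t + s) ^ 2) ≤ 1 / (2 * b) * (Cs * b * V) :=
            mul_le_mul_of_nonneg_left h2 (by positivity)
        _ = Cs / 2 * V := by field_simp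
    rw [h1]
    linarith
  have hm00 : 0 ≤ m := integral_nonneg fun t => hw0 t
  have hsplit : V * (c + θm * √c) ≤ Cw * (3 / 2 * b * mG + (Cs / 2 + K) * V) + y * m := by
    have h1 : ∫⁻ t, ENNReal.ofReal (w t * z (t + s)) ≤
        ENNReal.ofReal (Cw * (3 / 2 * b * mG + (Cs / 2 + K) * V) + y * m) := by
      rw [← lintegral_add_compl _ hGm, ENNReal.ofReal_add (by positivity) (by positivity)]
      refine add_le_add ?_ ?_
      · calc ∫⁻ t in G, ENNReal.ofReal (w t * z (t + s)) ≤ ∫⁻ t in G, ENNReal.ofReal (Cw * g t) :=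
              lintegral_mono fun t => ENNReal.ofReal_le_ofReal (hZg t)
          _ = ENNReal.ofReal (∫ t in G, Cw * g t) := by
              rw [ofReal_integral_eq_lintegral_ofReal (hgi.const_mul Cw).integrableOn
                (Eventually.of_forall fun t => mul_nonneg hCw (hg0 t))]
          _ ≤ _ := by
              apply ENNReal.ofReal_le_ofReal
              rw [integral_const_mul]
              exact mul_le_mul_of_nonneg_left hgG hCw
      · calc ∫⁻ t in Gᶜ, ENNReal.ofReal (w t * z (t + s)) ≤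
              ∫⁻ t in Gᶜ, ENNReal.ofReal (y * w t) := by
              refine setLIntegral_mono' hGm.compl fun t ht => ENNReal.ofReal_le_ofReal ?_
              rw [hG, mem_compl_iff, mem_ofPred_eq, not_le] at ht
              rw [mul_comm]
              exact mul_le_mul_of_nonneg_right ht.le (hw0 t)
          _ ≤ ∫⁻ t, ENNReal.ofReal (y * w t) := setLIntegral_le_lintegral _ _
          _ = ENNReal.ofReal (y * m) := by
              rw [← ofReal_integral_eq_lintegral_ofReal (hwi.const_mul _)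
                (Eventually.of_forall fun t => mul_nonneg hy0 (hw0 t)), integral_const_mul]
    exact (ENNReal.ofReal_le_ofReal_iff (by positivity)).1 (hE.trans h1)
  have hym : y * m ≤ y * V + 2 * V := by
    have h1 : y * m ≤ y * (V + V / T) := mul_le_mul_of_nonneg_left (by linarith) hy0
    have h2 : y * (V / T) ≤ 2 * c * (V / T) := mul_le_mul_of_nonneg_right hyc (by positivity)
    have h3 : y * (V + V / T) = y * V + y * (V / T) := by ring
    linarith
  have h1 : ((θm - θ') * √c - 2 - Cw * (Cs / 2 + K)) * V ≤ 3 / 2 * Cw * b * mG := by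
    have h2 : V * (c + θm * √c) - y * V = (θm - θ') * √c * V := by rw [hy]; ring
    have h3 : Cw * (3 / 2 * b * mG + (Cs / 2 + K) * V) = 3 / 2 * Cw * b * mG + Cw * (Cs / 2 + K) * V := by ring
    linarith
  have h2 : 3 / 2 * Cw * b * mG ≤ 3 / 2 * Cw * (c * mG) := by
    have h3 : b * mG ≤ c * mG := mul_le_mul_of_nonneg_right hbc hmG0
    have h4 := mul_le_mul_of_nonneg_left h3 (by positivity : 0 ≤ 3 / 2 * Cw)
    linarith
  have h3 : (2 + 3 / 2 * Cw) * V ≤ ((θm - θ') * √c - 2 - Cw * (Cs / 2 + K)) * V := by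
    apply mul_le_mul_of_nonneg_right _ hV0.le
    have h4 : Cw * (Cs + 2 * K + 1) = Cw * Cs + 2 * (Cw * K) + Cw := by ring
    have h5 : Cw * (Cs / 2 + K) = Cw * Cs / 2 + Cw * K := by ring
    have h6 : 0 ≤ Cw * Cs := by positivity
    have h7 : 0 ≤ Cw * K := by positivity
    linarith
  rw [div_le_iff₀ hc0]
  have h4 : (2 + 3 / 2 * Cw) * V ≤ 3 / 2 * Cw * (c * mG) := h3.trans (h1.trans h2)
  by_contra hcon
  push Not at hcon
  have h5 : 3 / 2 * Cw * (c * mG) ≤ 3 / 2 * Cw * V := mul_le_mul_of_nonneg_left (by linarith) (by positivity)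
  linarith

end Pool.Agent.Helper80.UV
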