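import Pool.Agent.Helper69.UV.Defs
import Pool.Agent.Helper80.UV.Core

/-!
# UV: Q2, many zeros in a window
-/

set_option autoImplicit false
open MeasureTheory Set Filter Topology
open Pool.Agent.Helper57.Zeta Pool.Agent.Helper57.LH Pool.Agent.Helper57.ED Pool.Agent.Helper54.LG
open Pool.Agent.Helper93.UG (zc IsOrd sp)
open Pool.Agent.Helper69.UG (pt NX)

namespace Pool.Agent.Helper80.UV

open Pool.Agent.Helper69.UV

variable {δ : ℝ}

lemma RR_cont (T c v : ℝ) : Continuous (RR δ T c v) := by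
  unfold RR
  refine continuous_finsetSum _ fun n hn => ?_
  have hn0 : (n : ℂ) ≠ 0 := by
    have := (Finset.mem_Icc.1 hn).1
    exact_mod_cast (by omega : n ≠ 0)
  refine continuous_const.mul (Continuous.const_cpow (by fun_prop) (Or.inl hn0))

lemma WW_pos {T : ℝ} (hT : 0 < T) : 0 < WW δ T := Real.rpow_pos_of_pos hT _

lemma WW_le {T : ℝ} (hδ : 0 < δ) (hT : 1 ≤ T) : WW δ T ≤ T := by
  unfold WW
  calc T ^ (1 - δ / 4096) ≤ T ^ (1 : ℝ) := Real.rpow_le_rpow_of_exponent_le hT (by linarith)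
    _ = T := Real.rpow_one T

lemma wt_cont {T : ℝ} (hT : 0 < T) (c v τ : ℝ) : Continuous (wt δ T c v τ) := by
  unfold wt PW
  have hW := WW_pos (δ := δ) hT
  have hR := RR_cont (δ := δ) T c v
  refine Continuous.mul (Continuous.div continuous_const (by fun_prop) fun t => ?_) (by fun_prop)
  have := Real.pi_pos
  positivity

lemma wt_nonneg {T : ℝ} (hT : 0 < T) (c v τ t : ℝ) : 0 ≤ wt δ T c v τ t :=
  mul_nonneg (PW_pos (WW_pos hT) _).le (sq_nonneg _)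

/-- the trivial bound for the resonator -/
lemma RR_le {T c v : ℝ} (hδ : 0 < δ) (hδ1 : δ ≤ 1 / 32) (hT : 1 ≤ T) (h : ∀ n, |rr δ T c v n| ≤ T ^ (δ / 64)) (t : ℝ) :
    ‖RR δ T c v t‖ ^ 2 ≤ T := by
  have hT0 : 0 < T := by linarith
  have h1 : ‖RR δ T c v t‖ ≤ T ^ (1 / 2 : ℝ) := by
    calc ‖RR δ T c v t‖ ≤ ∑ n ∈ Finset.Icc 1 (NR δ T), ‖(rr δ T c v n : ℂ) * (n : ℂ) ^ (-((1 / 2 : ℂ) + (t : ℂ) * Complex.I))‖ :=
          norm_sum_le _ _
      _ ≤ ∑ n ∈ Finset.Icc 1 (NR δ T), T ^ (δ / 64) := by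
          refine Finset.sum_le_sum fun n hn => ?_
          have hn1 : 1 ≤ n := (Finset.mem_Icc.1 hn).1
          rw [norm_mul, Complex.norm_real, Real.norm_eq_abs, Complex.norm_natCast_cpow_of_pos (by omega)]
          have h2 : (n : ℝ) ^ (-((1 / 2 : ℂ) + (t : ℂ) * Complex.I)).re ≤ 1 := by
            refine Real.rpow_le_one_of_one_le_of_nonpos (by exact_mod_cast hn1) ?_
            simp only [Complex.neg_re, Complex.add_re, Complex.mul_re, Complex.ofReal_re, Complex.I_re, mul_zero,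
              Complex.ofReal_im, Complex.I_im, mul_one, sub_self, add_zero]
            norm_num
          calc |rr δ T c v n| * (n : ℝ) ^ (-((1 / 2 : ℂ) + (t : ℂ) * Complex.I)).re ≤ T ^ (δ / 64) * 1 :=
                mul_le_mul (h n) h2 (by positivity) (by positivity)
            _ = _ := mul_one _
      _ = (NR δ T : ℝ) * T ^ (δ / 64) := by
          rw [Finset.sum_const, Nat.card_Icc, Nat.add_sub_cancel, nsmul_eq_mul]
      _ ≤ T ^ (1 / 2 - δ) * T ^ (δ / 64) := by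
          refine mul_le_mul_of_nonneg_right ?_ (by positivity)
          unfold NR
          exact Nat.floor_le (by positivity)
      _ = T ^ (1 / 2 - δ + δ / 64) := (Real.rpow_add hT0 _ _).symm
      _ ≤ T ^ (1 / 2 : ℝ) := Real.rpow_le_rpow_of_exponent_le hT (by linarith)
  calc ‖RR δ T c v t‖ ^ 2 ≤ (T ^ (1 / 2 : ℝ)) ^ 2 := pow_le_pow_left₀ (norm_nonneg _) h1 2
    _ = T := by
        rw [← Real.sqrt_eq_rpow, Real.sq_sqrt hT0.le]

/-- consequences of admissibility -/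
lemma adm_facts (hδ : 0 < δ) (hδ1 : δ ≤ 1 / 32) : ∃ T0 : ℝ, 16 ≤ T0 ∧ ∀ T, T0 ≤ T → ∀ c0 c : ℝ, 1 ≤ c → Adm δ c0 T c →
    1 ≤ XX δ T c ∧ 0 < HH T c ∧ HH T c ≤ 1 ∧ 64 * c ≤ Real.log T ∧ XX δ T c * HH T c = Real.pi / δ ^ 2 := by
  have h1 : ∀ᶠ T : ℝ in atTop, 1 ≤ Real.log (Real.log T) :=
    (Real.tendsto_log_atTop.comp Real.tendsto_log_atTop).eventually_ge_atTop _
  obtain ⟨T0, hT0⟩ := (h1.and (eventually_ge_atTop (16 : ℝ))).exists_forall_of_atTop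
  refine ⟨T0, (hT0 T0 le_rfl).2, fun T hT c0 c hc hA => ?_⟩
  obtain ⟨hl, hT16⟩ := hT0 T hT
  have hc0 : 0 < c := by linarith
  have h3 := hA.2
  have hlT0 : 0 < Real.log T := Real.log_pos (by linarith)
  have hδ2 : δ ^ 2 ≤ 1 := by nlinarith
  have hδ20 : 0 < δ ^ 2 := by positivity
  have h4 : 64 * c ≤ 64 * (c * Real.log (Real.log T)) := by nlinarith
  have h5 : δ ^ 2 * Real.log T ≤ 1 * Real.log T := mul_le_mul_of_nonneg_right hδ2 hlT0.le
  have hlT : 64 * c ≤ Real.log T := by linarith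
  have hX : 1 ≤ XX δ T c := by
    unfold XX
    rw [le_div_iff₀ (by positivity)]
    have h6 : δ ^ 2 * c ≤ 1 * c := mul_le_mul_of_nonneg_right hδ2 hc0.le
    linarith
  have hpi := Real.pi_pos
  refine ⟨hX, ?_, ?_, hlT, ?_⟩
  · unfold HH
    positivity
  · unfold HH
    rw [div_le_one hlT0]
    have h6 : Real.pi * c ≤ 4 * c := mul_le_mul_of_nonneg_right Real.pi_lt_four.le hc0.le
    linarith
  · unfold XX HH
    field_simp

/-- Q2 from R2, R8, R10, R11, K6 -/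
theorem many_of (hδ : 0 < δ) (hδ1 : δ ≤ 1 / 32)
    (rr_bd : ∃ c0 T0 : ℝ, ∀ T, T0 ≤ T → ∀ c, Adm δ c0 T c → ∀ v : ℝ,
      v ^ 2 = (1 - 4 * δ) * c → ∀ n, |rr δ T c v n| ≤ T ^ (δ / 64) ∧ 1 ≤ VV δ T c v)
    (wmass : ∃ c0 T0 : ℝ, ∀ T, T0 ≤ T → ∀ c, Adm δ c0 T c → ∀ v : ℝ,
      v ^ 2 = (1 - 4 * δ) * c → ∀ τ : ℝ,
      Integrable (wt δ T c v τ) ∧ |(∫ t, wt δ T c v τ t) - VV δ T c v| ≤ VV δ T c v / T)
    (eWS : ∃ c0 T0 : ℝ, ∀ T, T0 ≤ T → ∀ c, Adm δ c0 T c → ∀ v : ℝ,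
      v ^ 2 = (1 - 4 * δ) * c → ∀ τ : ℝ,
      (1 - 20 * δ) * c * VV δ T c v ≤ v * ∫ t, wt δ T c v τ t * WS δ T c t)
    (vSS : ∃ C c0 T0 : ℝ, 0 < C ∧ ∀ T, T0 ≤ T → ∀ c, Adm δ c0 T c → ∀ v : ℝ,
      v ^ 2 = (1 - 4 * δ) * c → ∀ τ u e : ℝ,
      e = 1 ∨ e = 2 → ∫ t, wt δ T c v τ t * SS (XX δ T c / e) (t + u) ^ 2 ≤ C * c * VV δ T c v)
    (nx_dev : ∃ C c0 T0 : ℝ, 0 < C ∧ ∀ T, T0 ≤ T → ∀ c, Adm δ c0 T c → ∀ v : ℝ,
      v ^ 2 = (1 - 4 * δ) * c →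
      ∀ τ u e : ℝ, T ≤ τ → τ ≤ 2 * T → |u| ≤ √T → e = 1 ∨ e = 2 →
      Integrable (fun t => wt δ T c v τ t * |NX (XX δ T c / e) (t + u) - e * (δ ^ 2 * c) + SS (XX δ T c / e) (t + u)|) ∧
      ∫ t, wt δ T c v τ t * |NX (XX δ T c / e) (t + u) - e * (δ ^ 2 * c) + SS (XX δ T c / e) (t + u)| ≤
        C * VV δ T c v) :
    ∃ c0 T0 : ℝ, ∀ T, T0 ≤ T → ∀ c, Adm δ c0 T c → ∀ v : ℝ,
    v ^ 2 = (1 - 4 * δ) * c → v < 0 →
    ∀ τ, T ≤ τ → τ ≤ 2 * T → ∃ s : ℝ, |s| ≤ √T ∧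
      Real.exp (-c) * VV δ T c v ≤ ∫ t in {t : ℝ | t + s ∈
        {t : ℝ | c + (1 - 21 * δ) * √c ≤ (zc (Ico (t - HH T c) (t + HH T c)) : ℝ)}}, wt δ T c v τ t := by
  obtain ⟨cr, Tr, hrr⟩ := rr_bd
  obtain ⟨cm, Tm, hmass⟩ := wmass
  obtain ⟨ce, Te, heWS⟩ := eWS
  obtain ⟨Cs, cs, Ts, hCs, hvSS⟩ := vSS
  obtain ⟨Cd, cd, Td, hCd, hnx⟩ := nx_dev
  obtain ⟨Tt, hTt16, htail⟩ := tail
  obtain ⟨Ta, hTa16, hadm⟩ := adm_facts hδ hδ1
  have hpi := Real.pi_pos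
  have hδ2 : 0 < δ ^ 2 := by positivity
  set Cw : ℝ := 48 / 11 * (1 + (Real.pi / δ ^ 2) ^ 2) with hCw
  have hCw0 : 0 ≤ Cw := by positivity
  set Q : ℝ := 8 + 4 * (1 / δ ^ 2 * Cd + Cw * (Cs / δ ^ 2 + 2 * Cd + 1)) with hQ
  have hQ0 : 0 ≤ Q := by positivity
  refine ⟨max (max (max cr cm) (max ce cs)) (max cd ((Q / δ) ^ 2 + 2)), max (max (max Tr Tm) (max Te Ts)) (max Td (max Tt Ta)), ?_⟩
  intro T hT c hc v hv hv0 τ hτ1 hτ2
  simp only [max_le_iff] at hT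
  obtain ⟨⟨⟨hTr, hTm⟩, hTe, hTs⟩, hTd, hTt, hTa⟩ := hT
  have hcc := hc.1
  simp only [max_le_iff] at hcc
  obtain ⟨⟨⟨hcr, hcm⟩, hce, hcs⟩, hcd, hcQ⟩ := hcc
  have hT16 : 16 ≤ T := by linarith
  have hT0 : 0 < T := by linarith
  have hc2 : 2 ≤ c := by
    have : 0 ≤ (Q / δ) ^ 2 := sq_nonneg _
    linarith
  have hc0 : 0 < c := by linarith
  obtain ⟨hX1, hH0, hH1, hlog, hXH⟩ := hadm T hTa _ c (by linarith) hc
  have hX0 : 0 < XX δ T c := by linarith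
  set V := VV δ T c v with hVd
  have hV1 : 1 ≤ V := (hrr T hTr c ⟨hcr, hc.2⟩ v hv 0).2
  have hV0 : 0 < V := by linarith
  obtain ⟨hwi, hwm⟩ := hmass T hTm c ⟨hcm, hc.2⟩ v hv τ
  rw [← hVd] at hwm
  have hτabs : |τ| ≤ 2 * T := by rw [abs_of_nonneg (by linarith)]; exact hτ2
  have hsqrtT : 1 ≤ √T := Real.one_le_sqrt.2 (by linarith)
  have hsq : 0 < √c := Real.sqrt_pos.2 hc0
  have hsq1 : 1 < √c := by
    rw [Real.lt_sqrt (by norm_num)]
    linarith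
  have hsqc : √c * √c = c := Real.mul_self_sqrt hc0.le
  have hwc : Continuous (wt δ T c v τ) := wt_cont hT0 c v τ
  have hw0 : ∀ t, 0 ≤ wt δ T c v τ t := wt_nonneg hT0 c v τ
  have hwV : ∫ t, wt δ T c v τ t ≤ 2 * V := by
    have h1 := (abs_le.1 hwm).2
    have h2 : V / T ≤ V := div_le_self hV0.le (by linarith)
    linarith
  -- the mean of the prime sum
  have hE := heWS T hTe c ⟨hce, hc.2⟩ v hv τ
  rw [← hVd] at hE
  set E : ℝ := ∫ t, wt δ T c v τ t * WS δ T c t with hEd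
  have hvs : -v ≤ √c := by
    have h1 : (-v) ^ 2 ≤ √c ^ 2 := by
      rw [neg_sq, hv, Real.sq_sqrt hc0.le]
      nlinarith
    exact (pow_le_pow_iff_left₀ (by linarith) hsq.le two_ne_zero).1 h1
  have hE2 : E ≤ -((1 - 20 * δ) * √c * V) := by
    by_contra hcon
    push Not at hcon
    have h20 : 0 < 1 - 20 * δ := by linarith
    have h1 : (-v) * (-E) < √c * ((1 - 20 * δ) * √c * V) := by
      have h2 : -E < (1 - 20 * δ) * √c * V := by linarith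
      have h3 : 0 < (1 - 20 * δ) * √c * V := by positivity
      calc (-v) * (-E) < (-v) * ((1 - 20 * δ) * √c * V) := mul_lt_mul_of_pos_left h2 (by linarith)
        _ ≤ √c * ((1 - 20 * δ) * √c * V) := mul_le_mul_of_nonneg_right hvs h3.le
    have h2 : √c * ((1 - 20 * δ) * √c * V) = (1 - 20 * δ) * (√c * √c) * V := by ring
    rw [h2, hsqc] at h1
    linarith
  -- the threshold
  have hthr : Q ≤ δ * √c := by
    have h1 : Q / δ ≤ √c := Real.le_sqrt_of_sq_le (by linarith)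
    rw [div_le_iff₀ hδ] at h1
    linarith
  have hXH' : XX δ T c * HH T c / Real.pi = 1 / δ ^ 2 := by
    rw [hXH]
    field_simp
  obtain ⟨s, hs, hfin⟩ := many_core (w := wt δ T c v τ) (X := XX δ T c) (h := HH T c) (T := T) (c := c) (b := δ ^ 2 * c)
    (θ := 1 - 20 * δ) (θ' := 1 - 21 * δ) (Cs := Cs / δ ^ 2) (K := Cd) (V := V) (Cw := Cw) hX1 hH0 (by positivity)
    (by
      rw [hXH', le_div_iff₀ hδ2]
      nlinarith)
    (by
      rw [hXH']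
      field_simp)
    (hH1.trans hsqrtT) hT16 (by linarith) (by linarith) hwc hwi hw0 hV1 hwm (by positivity) hCd.le hCw0
    (fun u hu => by
      have h1 := hnx T hTd c ⟨hcd, hc.2⟩ v hv τ u 1 hτ1 hτ2 hu (Or.inl rfl)
      simpa only [div_one, one_mul] using h1)
    (fun u => by
      have h1 := hvSS T hTs c ⟨hcs, hc.2⟩ v hv τ u 1 (Or.inl rfl)
      rw [div_one] at h1
      refine h1.trans (le_of_eq ?_)
      rw [hVd]
      field_simp)
    hE2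
    (fun t => by
      have h1 := Pool.Agent.Helper24.UG.window_le_gen hX0 (HH T c) t
      rw [hXH] at h1
      exact h1)
    (htail hTt (WW_pos hT0) (WW_le hδ (by linarith)) hτabs
      (fun t => ⟨sq_nonneg _, RR_le hδ hδ1 (by linarith) (fun n => (hrr T hTr c ⟨hcr, hc.2⟩ v hv n).1) t⟩)
      (fun _ => rfl) hwc hwi hV1 hwV hX1 hH0.le hH1)
    (by
      rw [abs_lt]
      constructor <;> linarith)
    (by
      rw [abs_lt]
      constructor <;> linarith)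
    (by
      rw [hXH']
      have h1 : (1 - 20 * δ - (1 - 21 * δ)) * √c = δ * √c := by ring
      rw [h1]
      exact hthr)
  refine ⟨s, hs, le_trans ?_ hfin⟩
  have h1 : c ≤ Real.exp c := by
    have := Real.add_one_le_exp c
    linarith
  rw [Real.exp_neg, div_eq_inv_mul]
  refine mul_le_mul_of_nonneg_right ?_ hV0.le
  exact inv_anti₀ hc0 h1

end Pool.Agent.Helper80.UV
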